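import Mathlib
import Pool.Agent.H534R3.Rot

/-! # Elementary matrices over continuous functions on a sphere and first rows -/

set_option autoImplicit false

open Set Metric Topology

namespace Pool.Agent.R687.Um

variable {k : ℕ}

/-- The unit sphere of `ℝ^(k+1)`. -/
abbrev Sp (k : ℕ) : Type := sphere (0 : EuclideanSpace ℝ (Fin (k + 1))) 1

/-- `g` is connected to the identity by a continuous path of invertible matrices. -/
def Q (g : Matrix (Fin (k + 1)) (Fin (k + 1)) C(Sp k, ℝ)) : Prop :=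
  ∃ H : unitInterval × Sp k → Matrix (Fin (k + 1)) (Fin (k + 1)) ℝ,
    Continuous H ∧ (∀ p, (H p).det ≠ 0) ∧ (∀ s, H (0, s) = 1) ∧
      ∀ s, H (1, s) = g.map (fun f => f s)

lemma Q_one : Q (1 : Matrix (Fin (k + 1)) (Fin (k + 1)) C(Sp k, ℝ)) := by
  refine ⟨fun _ => 1, continuous_const, fun _ => by simp, fun _ => rfl, fun s => ?_⟩
  rw [Matrix.map_one]
  · rfl
  · rfl

lemma Q_mul {g h : Matrix (Fin (k + 1)) (Fin (k + 1)) C(Sp k, ℝ)} (hg : Q g) (hh : Q h) :
    Q (g * h) := by
  obtain ⟨H1, c1, d1, z1, e1⟩ := hg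
  obtain ⟨H2, c2, d2, z2, e2⟩ := hh
  refine ⟨fun p => H1 p * H2 p, c1.matrix_mul c2, fun p => ?_, fun s => ?_, fun s => ?_⟩
  · rw [Matrix.det_mul]; exact mul_ne_zero (d1 p) (d2 p)
  · simp only [z1, z2, mul_one]
  · simp only [e1, e2]
    ext i j
    simp [Matrix.mul_apply]

lemma Q_transvection (i j : Fin (k + 1)) (hij : i ≠ j) (c : C(Sp k, ℝ)) :
    Q (Matrix.transvection i j c) := by
  refine ⟨fun p => Matrix.transvection i j ((p.1 : ℝ) * c p.2), ?_, fun p => ?_, fun s => ?_,
    fun s => ?_⟩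
  · unfold Matrix.transvection
    refine continuous_const.add ?_
    refine continuous_matrix fun a b => ?_
    simp only [Matrix.single_apply]
    split_ifs
    · fun_prop
    · exact continuous_const
  · rw [Matrix.det_transvection_of_ne i j hij]; exact one_ne_zero
  · simp [Matrix.transvection]
  · ext a b
    simp only [Matrix.transvection, Matrix.map_apply, Matrix.add_apply, Matrix.single_apply,
      Matrix.one_apply]
    split_ifs <;> simp

theorem no_row {g : Matrix (Fin (k + 1)) (Fin (k + 1)) C(Sp k, ℝ)} (hg : Q g)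
    (h : ∀ (j : Fin (k + 1)) (s : Sp k), g 0 j s = (s : EuclideanSpace ℝ (Fin (k + 1))) j) :
    False := by
  obtain ⟨H, hc, hd, h0, h1⟩ := hg
  set r : unitInterval × Sp k → EuclideanSpace ℝ (Fin (k + 1)) :=
    fun p => WithLp.toLp 2 (fun j => H p 0 j) with hr
  have hrc : Continuous r := by
    have : Continuous fun p => (fun j => H p 0 j : Fin (k + 1) → ℝ) := by
      refine continuous_pi fun j => ?_
      exact hc.matrix_elem 0 j
    exact (PiLp.continuous_toLp 2 _).comp this
  have hr0 : ∀ p, r p ≠ 0 := by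
    intro p hp
    apply hd p
    refine Matrix.det_eq_zero_of_row_eq_zero 0 fun j => ?_
    have := congrArg (fun x : EuclideanSpace ℝ (Fin (k + 1)) => x j) hp
    simpa using this
  have hmem : ∀ p, ‖r p‖⁻¹ • r p ∈ sphere (0 : EuclideanSpace ℝ (Fin (k + 1))) 1 := by
    intro p
    rw [mem_sphere_zero_iff_norm, norm_smul, norm_inv, norm_norm,
      inv_mul_cancel₀ (norm_ne_zero_iff.2 (hr0 p))]
  let F : unitInterval × Sp k → Sp k := fun p => ⟨‖r p‖⁻¹ • r p, hmem p⟩
  have hF : Continuous F := by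
    refine Continuous.subtype_mk ?_ _
    exact (hrc.norm.inv₀ fun p => norm_ne_zero_iff.2 (hr0 p)).smul hrc
  have hconst : ∀ s s', F (0, s) = F (0, s') := by
    intro s s'
    apply Subtype.ext
    show ‖r (0, s)‖⁻¹ • r (0, s) = ‖r (0, s')‖⁻¹ • r (0, s')
    have : r (0, s) = r (0, s') := by simp only [hr, h0]
    rw [this]
  have hone : ∀ s, F (1, s) = s := by
    intro s
    apply Subtype.ext
    show ‖r (1, s)‖⁻¹ • r (1, s) = s
    have : r (1, s) = s := by
      ext j
      simp only [hr, h1, Matrix.map_apply]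
      exact h j s
    rw [this]
    have h2 : ‖(s : EuclideanSpace ℝ (Fin (k + 1)))‖ = 1 := mem_sphere_zero_iff_norm.1 s.2
    rw [h2, inv_one, one_smul]
  -- a base point
  have hne : Nonempty (Sp k) := by
    refine ⟨⟨EuclideanSpace.single 0 1, ?_⟩⟩
    simp
  obtain ⟨s0⟩ := hne
  apply Pool.Agent.H534R3.Rot.sphere_not_nullhomotopic (k + 1)
  refine ⟨F (0, s0), ?_⟩
  refine ContinuousMap.Homotopic.symm ⟨⟨⟨F, hF⟩, ?_, ?_⟩⟩
  · intro s
    exact hconst s s0
  · intro s
    exact hone s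

/-- The elementary subgroup `E_n(A)`: generated by the matrices `1 + c e_{ij}`, `i ≠ j`. -/
def elementary (n : ℕ) (A : Type*) [CommRing A] : Subgroup (Matrix (Fin n) (Fin n) A)ˣ :=
  Subgroup.closure {g | ∃ (i j : Fin n) (c : A), i ≠ j ∧
    (g : Matrix (Fin n) (Fin n) A) = Matrix.transvection i j c}

lemma Q_of_elementary {A : Type*} [CommRing A] (Φ : A →+* C(Sp k, ℝ))
    (g : (Matrix (Fin (k + 1)) (Fin (k + 1)) A)ˣ) (hg : g ∈ elementary (k + 1) A) :
    Q ((g : Matrix (Fin (k + 1)) (Fin (k + 1)) A).map Φ) ∧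
      Q (((g⁻¹ : (Matrix (Fin (k + 1)) (Fin (k + 1)) A)ˣ) :
        Matrix (Fin (k + 1)) (Fin (k + 1)) A).map Φ) := by
  have hmap : ∀ (i j : Fin (k + 1)) (c : A),
      (Matrix.transvection i j c).map Φ = Matrix.transvection i j (Φ c) := by
    intro i j c
    ext a b s
    simp only [Matrix.transvection, Matrix.map_apply, Matrix.add_apply, Matrix.single_apply,
      Matrix.one_apply, map_add]
    split_ifs <;> simp
  induction hg using Subgroup.closure_induction with
  | mem x hx =>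
    obtain ⟨i, j, c, hij, hx⟩ := hx
    constructor
    · rw [hx, hmap]; exact Q_transvection i j hij _
    · have : ((x⁻¹ : (Matrix (Fin (k + 1)) (Fin (k + 1)) A)ˣ) :
          Matrix (Fin (k + 1)) (Fin (k + 1)) A) = Matrix.transvection i j (-c) := by
        rw [← mul_one (((x⁻¹ : (Matrix (Fin (k + 1)) (Fin (k + 1)) A)ˣ) :
          Matrix (Fin (k + 1)) (Fin (k + 1)) A)), Units.inv_mul_eq_iff_eq_mul, hx,
          Matrix.transvection_mul_transvection_same _ _ hij, add_neg_cancel,
          Matrix.transvection_zero]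
      rw [this, hmap]; exact Q_transvection i j hij _
  | one =>
    simp only [inv_one, Units.val_one]
    rw [Matrix.map_one _ (map_zero Φ) (map_one Φ)]
    exact ⟨Q_one, Q_one⟩
  | mul x y _ _ hx hy =>
    rw [Units.val_mul, mul_inv_rev, Units.val_mul, Matrix.map_mul, Matrix.map_mul]
    exact ⟨Q_mul hx.1 hy.1, Q_mul hy.2 hx.2⟩
  | inv x _ hx =>
    rw [inv_inv]
    exact ⟨hx.2, hx.1⟩

theorem no_elementary_row {A : Type*} [CommRing A] (Φ : A →+* C(Sp k, ℝ))
    (v : Fin (k + 1) → A)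
    (hv : ∀ (j : Fin (k + 1)) (s : Sp k), Φ (v j) s = (s : EuclideanSpace ℝ (Fin (k + 1))) j)
    (g : (Matrix (Fin (k + 1)) (Fin (k + 1)) A)ˣ) (hg : g ∈ elementary (k + 1) A)
    (h : ∀ j, v j = (g : Matrix (Fin (k + 1)) (Fin (k + 1)) A) 0 j) : False := by
  refine no_row (Q_of_elementary Φ g hg).1 fun j s => ?_
  rw [Matrix.map_apply, ← h j, hv]

end Pool.Agent.R687.Um
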